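import Pool.Agent.Y192.OG.StA

set_option autoImplicit false

/-!
# A Bezout identity from a radical ideal in a group algebra
-/

namespace Pool.Agent.Y180.OG

open Polynomial

noncomputable section

variable {M : Type} [AddCommGroup M] (lam : M →+ ℤ) (b : M)

/-- the group algebra of the kernel -/
abbrev A0 : Type := AddMonoidAlgebra ℂ lam.ker

/-- the inclusion -/
def jj : A0 lam →+* AddMonoidAlgebra ℂ M := AddMonoidAlgebra.mapDomainRingHom ℂ lam.ker.subtype

lemma jj_single (m : lam.ker) (c : ℂ) :
    jj lam (AddMonoidAlgebra.single m c) = AddMonoidAlgebra.single (m : M) c := by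
  simp [jj]

variable {lam b}

/-- the projection to the kernel -/
def pk (hb : lam b = 1) : M →+ lam.ker where
  toFun m := ⟨m - lam m • b, by simp [AddMonoidHom.mem_ker, hb]⟩
  map_zero' := by simp
  map_add' x y := by
    apply Subtype.ext
    simp only [map_add, add_smul, AddSubgroup.coe_add]
    abel

lemma pk_coe (hb : lam b = 1) (m : M) : (pk hb m : M) = m - lam m • b := rfl

variable {k : Type} [Field k] (ι : A0 lam →+* k)

/-- the map to the Laurent polynomials -/
def kap (hb : lam b = 1) : AddMonoidAlgebra ℂ M →+* LaurentPolynomial k :=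
  AddMonoidAlgebra.liftNCRingHom
    ((AddMonoidAlgebra.singleZeroRingHom).comp (ι.comp AddMonoidAlgebra.singleZeroRingHom))
    { toFun := fun m => AddMonoidAlgebra.single (lam m.toAdd) (ι (AddMonoidAlgebra.single (pk hb m.toAdd) 1))
      map_one' := by
        simp only [toAdd_one, map_zero]
        rw [← AddMonoidAlgebra.one_def, map_one, ← AddMonoidAlgebra.one_def]
      map_mul' := fun x y => by
        rw [AddMonoidAlgebra.single_mul_single, toAdd_mul, map_add, map_add, ← map_mul,
          AddMonoidAlgebra.single_mul_single, one_mul] }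
    (fun _ _ => Commute.all _ _)

lemma kap_single (hb : lam b = 1) (m : M) (c : ℂ) :
    kap ι hb (AddMonoidAlgebra.single m c) =
      AddMonoidAlgebra.single (lam m) (ι (AddMonoidAlgebra.single (pk hb m) c)) := by
  unfold kap
  rw [AddMonoidAlgebra.liftNCRingHom_single]
  change (AddMonoidAlgebra.single (0 : ℤ) (ι (AddMonoidAlgebra.single 0 c)) : LaurentPolynomial k) *
    AddMonoidAlgebra.single (lam m) (ι (AddMonoidAlgebra.single (pk hb m) 1)) = _
  rw [AddMonoidAlgebra.single_mul_single, zero_add, ← map_mul, AddMonoidAlgebra.single_mul_single,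
    zero_add, mul_one]

/-- restriction to the degree `n` -/
def fil (lam : M →+ ℤ) (n : ℤ) (g : AddMonoidAlgebra ℂ M) : AddMonoidAlgebra ℂ M :=
  AddMonoidAlgebra.ofCoeff (g.coeff.filter fun m => lam m = n)

/-- the component of degree `n`, moved to degree zero -/
def cn (hb : lam b = 1) (n : ℤ) (g : AddMonoidAlgebra ℂ M) : A0 lam :=
  AddMonoidAlgebra.mapDomain (pk hb) (fil lam n g)

lemma fil_add (n : ℤ) (g h : AddMonoidAlgebra ℂ M) : fil lam n (g + h) = fil lam n g + fil lam n h := by
  unfold fil
  rw [AddMonoidAlgebra.coeff_add, Finsupp.filter_add, AddMonoidAlgebra.ofCoeff_add]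

lemma fil_single (n : ℤ) (m : M) (c : ℂ) : fil lam n (AddMonoidAlgebra.single m c) =
    if lam m = n then AddMonoidAlgebra.single m c else 0 := by
  unfold fil
  rw [AddMonoidAlgebra.coeff_single]
  split_ifs with h
  · rw [Finsupp.filter_single_of_pos (fun m => lam m = n) h, AddMonoidAlgebra.ofCoeff_single]
  · rw [Finsupp.filter_single_of_neg (fun m => lam m = n) h, AddMonoidAlgebra.ofCoeff_zero]

lemma fil_zero (n : ℤ) : fil lam n (0 : AddMonoidAlgebra ℂ M) = 0 := by
  unfold fil
  rw [AddMonoidAlgebra.coeff_zero, Finsupp.filter_zero, AddMonoidAlgebra.ofCoeff_zero]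

lemma cn_zero (hb : lam b = 1) (n : ℤ) : cn hb n (0 : AddMonoidAlgebra ℂ M) = 0 := by
  unfold cn
  rw [fil_zero, AddMonoidAlgebra.mapDomain_zero]

lemma cn_add (hb : lam b = 1) (n : ℤ) (g h : AddMonoidAlgebra ℂ M) :
    cn hb n (g + h) = cn hb n g + cn hb n h := by
  unfold cn
  rw [fil_add, AddMonoidAlgebra.mapDomain_add]

lemma cn_single (hb : lam b = 1) (n : ℤ) (m : M) (c : ℂ) : cn hb n (AddMonoidAlgebra.single m c) =
    if lam m = n then AddMonoidAlgebra.single (pk hb m) c else 0 := by
  unfold cn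
  rw [fil_single]
  split_ifs with h
  · rw [AddMonoidAlgebra.mapDomain_single]
  · rw [AddMonoidAlgebra.mapDomain_zero]

lemma kap_coeff (hb : lam b = 1) (n : ℤ) (g : AddMonoidAlgebra ℂ M) :
    (kap ι hb g).coeff n = ι (cn hb n g) := by
  induction g using AddMonoidAlgebra.induction_linear with
  | zero => simp [cn_zero]
  | add x y hx hy => rw [map_add, cn_add, map_add, AddMonoidAlgebra.coeff_add, Finsupp.add_apply, hx, hy]
  | single m c =>
    rw [kap_single, cn_single, AddMonoidAlgebra.coeff_single, Finsupp.single_apply]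
    split_ifs
    · rfl
    · rw [map_zero]

lemma jj_cn (hb : lam b = 1) (n : ℤ) (g : AddMonoidAlgebra ℂ M) :
    jj lam (cn hb n g) = AddMonoidAlgebra.single (-(n • b)) 1 * fil lam n g := by
  induction g using AddMonoidAlgebra.induction_linear with
  | zero => simp [cn_zero, fil_zero]
  | add x y hx hy => rw [cn_add, map_add, hx, hy, fil_add, mul_add]
  | single m c =>
    rw [cn_single, fil_single]
    split_ifs with h
    · rw [jj_single, pk_coe, AddMonoidAlgebra.single_mul_single, one_mul, h]
      congr 1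
      abel
    · simp

lemma sum_fil (g : AddMonoidAlgebra ℂ M) :
    g = ∑ n ∈ g.coeff.support.image lam, fil lam n g := by
  ext m
  rw [AddMonoidAlgebra.coeff_sum, Finsupp.finsetSum_apply]
  simp only [fil, AddMonoidAlgebra.coeff_ofCoeff, Finsupp.filter_apply]
  by_cases hm : m ∈ g.coeff.support
  · rw [Finset.sum_ite_eq, if_pos (Finset.mem_image_of_mem _ hm)]
  · rw [Finsupp.notMem_support_iff] at hm
    simp [hm]

variable {I : Ideal (AddMonoidAlgebra ℂ M)}

/-- the kernel -/
lemma kap_zero_iff (hb : lam b = 1) (hι : ∀ c : A0 lam, ι c = 0 ↔ jj lam c ∈ I)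
    (hI : ∀ g ∈ I, ∀ n : ℤ, fil lam n g ∈ I) (g : AddMonoidAlgebra ℂ M) :
    kap ι hb g = 0 ↔ g ∈ I := by
  constructor
  · intro h
    rw [sum_fil (lam := lam) g]
    refine Ideal.sum_mem _ fun n _ => ?_
    have h1 : ι (cn hb n g) = 0 := by rw [← kap_coeff, h]; rfl
    rw [hι, jj_cn] at h1
    have h2 := I.mul_mem_left (AddMonoidAlgebra.single (n • b) 1) h1
    rw [← mul_assoc, AddMonoidAlgebra.single_mul_single, add_neg_cancel, one_mul,
      ← AddMonoidAlgebra.one_def, one_mul] at h2
    exact h2
  · intro h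
    ext n
    rw [kap_coeff, AddMonoidAlgebra.coeff_zero, Finsupp.zero_apply, hι, jj_cn]
    exact I.mul_mem_left _ (hI g h n)

lemma kap_jj (hb : lam b = 1) (c : A0 lam) : kap ι hb (jj lam c) = LaurentPolynomial.C (ι c) := by
  induction c using AddMonoidAlgebra.induction_linear with
  | zero => simp
  | add x y hx hy => rw [map_add, map_add, hx, hy, map_add, map_add]
  | single m c =>
    have h0 : lam (m : M) = 0 := m.2
    have h1 : pk hb (m : M) = m := by
      apply Subtype.ext
      rw [pk_coe, h0, zero_smul, sub_zero]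
    rw [jj_single, kap_single, h0, h1]
    rfl

lemma kap_b (hb : lam b = 1) (n : ℤ) : kap ι hb (AddMonoidAlgebra.single (n • b) 1) =
    LaurentPolynomial.T n := by
  have h1 : pk hb (n • b) = 0 := by
    apply Subtype.ext
    rw [pk_coe, map_zsmul, hb]
    simp
  rw [kap_single, h1, map_zsmul, hb, ← AddMonoidAlgebra.one_def, map_one, smul_eq_mul, mul_one]
  rfl

/-- common denominators -/
lemma denom (hb : lam b = 1) (hk : ∀ x : k, ∃ c a : A0 lam, ι c ≠ 0 ∧ ι c * x = ι a)
    (h : LaurentPolynomial k) : ∃ (c : A0 lam) (g : AddMonoidAlgebra ℂ M), ι c ≠ 0 ∧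
      LaurentPolynomial.C (ι c) * h = kap ι hb g := by
  induction h using LaurentPolynomial.induction_on' with
  | add p q hp hq =>
    obtain ⟨c, g, hc, h1⟩ := hp
    obtain ⟨c', g', hc', h2⟩ := hq
    refine ⟨c * c', jj lam c' * g + jj lam c * g', by rw [map_mul]; exact mul_ne_zero hc hc', ?_⟩
    rw [map_mul ι, map_mul LaurentPolynomial.C, map_add (kap ι hb), map_mul (kap ι hb),
      map_mul (kap ι hb), kap_jj, kap_jj, ← h1, ← h2]
    ring
  | C_mul_T n a =>
    obtain ⟨c, a', hc, h1⟩ := hk a
    refine ⟨c, jj lam a' * AddMonoidAlgebra.single (n • b) 1, hc, ?_⟩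
    rw [map_mul (kap ι hb), kap_jj, kap_b, ← h1, map_mul, mul_assoc]

/-- the derivation `T d/dT` -/
def dl : LaurentPolynomial k →+ LaurentPolynomial k where
  toFun h := h.coeff.sum fun n a => AddMonoidAlgebra.single n ((n : k) * a)
  map_zero' := by simp
  map_add' x y := by
    rw [AddMonoidAlgebra.coeff_add]
    refine Finsupp.sum_add_index' (fun n => by simp) fun n a a' => ?_
    rw [mul_add, AddMonoidAlgebra.single_add]

lemma dl_single (n : ℤ) (a : k) :
    dl (AddMonoidAlgebra.single n a) = AddMonoidAlgebra.single n ((n : k) * a) := by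
  change (Finsupp.single n a).sum (fun n a => AddMonoidAlgebra.single n ((n : k) * a)) = _
  rw [Finsupp.sum_single_index (by rw [mul_zero, AddMonoidAlgebra.single_zero])]

/-- the derivation on the group algebra -/
def DD (lam : M →+ ℤ) : AddMonoidAlgebra ℂ M →+ AddMonoidAlgebra ℂ M where
  toFun h := h.coeff.sum fun m a => AddMonoidAlgebra.single m ((lam m : ℂ) * a)
  map_zero' := by simp
  map_add' x y := by
    rw [AddMonoidAlgebra.coeff_add]
    refine Finsupp.sum_add_index' (fun n => by simp) fun n a a' => ?_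
    rw [mul_add, AddMonoidAlgebra.single_add]

lemma DD_single (m : M) (a : ℂ) :
    DD lam (AddMonoidAlgebra.single m a) = AddMonoidAlgebra.single m ((lam m : ℂ) * a) := by
  change (Finsupp.single m a).sum (fun m a => AddMonoidAlgebra.single m ((lam m : ℂ) * a)) = _
  rw [Finsupp.sum_single_index (by rw [mul_zero, AddMonoidAlgebra.single_zero])]

lemma kap_DD (hb : lam b = 1) (g : AddMonoidAlgebra ℂ M) : kap ι hb (DD lam g) = dl (kap ι hb g) := by
  induction g using AddMonoidAlgebra.induction_linear with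
  | zero => simp
  | add x y hx hy => rw [map_add, map_add, hx, hy, map_add, map_add]
  | single m c =>
    rw [DD_single, kap_single, kap_single, dl_single]
    congr 1
    rw [← map_intCast ι, ← map_mul]
    congr 1
    rw [← zsmul_eq_mul, ← zsmul_eq_mul, AddMonoidAlgebra.smul_single]

lemma dl_mul_T (h : LaurentPolynomial k) (n : ℤ) :
    dl (h * LaurentPolynomial.T n) = dl h * LaurentPolynomial.T n + (n : LaurentPolynomial k) *
      (h * LaurentPolynomial.T n) := by
  induction h using AddMonoidAlgebra.induction_linear with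
  | zero => simp
  | add x y hx hy => rw [add_mul, map_add, hx, hy, map_add]; ring
  | single m c =>
    have e : (n : LaurentPolynomial k) * AddMonoidAlgebra.single (m + n) (c * 1) =
        AddMonoidAlgebra.single (m + n) ((n : k) * (c * 1)) := by
      rw [← zsmul_eq_mul, AddMonoidAlgebra.smul_single, zsmul_eq_mul]
    rw [LaurentPolynomial.T, AddMonoidAlgebra.single_mul_single, dl_single, dl_single,
      AddMonoidAlgebra.single_mul_single, e, ← AddMonoidAlgebra.single_add]
    congr 1
    push_cast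
    ring

lemma dl_poly (p : k[X]) : dl (toLaurent p) = toLaurent (X * derivative p) := by
  induction p using Polynomial.induction_on' with
  | add p q hp hq => rw [map_add, map_add, hp, hq, derivative_add, mul_add, map_add]
  | monomial n a =>
    rw [← C_mul_X_pow_eq_monomial, Polynomial.toLaurent_C_mul_X_pow]
    have e : (LaurentPolynomial.C a * LaurentPolynomial.T (n : ℤ) : LaurentPolynomial k) =
        AddMonoidAlgebra.single (n : ℤ) a := by
      rw [← LaurentPolynomial.single_eq_C_mul_T]
    rw [e, dl_single]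
    rcases n with _ | n
    · simp
    · have e2 : (X * derivative (C a * X ^ (n + 1)) : k[X]) = C (((n + 1 : ℕ) : k) * a) * X ^ (n + 1) := by
        rw [derivative_C_mul_X_pow, Nat.add_sub_cancel, mul_comm a, pow_succ]
        ring
      rw [e2, Polynomial.toLaurent_C_mul_X_pow, ← LaurentPolynomial.single_eq_C_mul_T]
      push_cast
      rfl

theorem t_bez : Pool.Agent.Y192.OG.St_bez := by
  intro M _ I hIp f hf hrad lam hlam hhom
  obtain ⟨b, hb⟩ := hlam 1
  -- the field
  let I0 : Ideal (A0 lam) := I.comap (jj lam)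
  have hI0 : I0.IsPrime := Ideal.comap_isPrime (jj lam) I
  let k := FractionRing (A0 lam ⧸ I0)
  let ι : A0 lam →+* k := (algebraMap (A0 lam ⧸ I0) k).comp (Ideal.Quotient.mk I0)
  have hι : ∀ c : A0 lam, ι c = 0 ↔ jj lam c ∈ I := by
    intro c
    change algebraMap (A0 lam ⧸ I0) k (Ideal.Quotient.mk I0 c) = 0 ↔ _
    rw [map_eq_zero_iff _ (IsFractionRing.injective (A0 lam ⧸ I0) k), Ideal.Quotient.eq_zero_iff_mem]
    rfl
  have hk : ∀ x : k, ∃ c a : A0 lam, ι c ≠ 0 ∧ ι c * x = ι a := by
    intro x
    obtain ⟨a, c, hc, rfl⟩ := IsFractionRing.div_surjective (A := A0 lam ⧸ I0) x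
    obtain ⟨a, rfl⟩ := Ideal.Quotient.mk_surjective a
    obtain ⟨c, rfl⟩ := Ideal.Quotient.mk_surjective c
    have hc0 : algebraMap (A0 lam ⧸ I0) k (Ideal.Quotient.mk I0 c) ≠ 0 := by
      rw [Ne, map_eq_zero_iff _ (IsFractionRing.injective (A0 lam ⧸ I0) k)]
      exact nonZeroDivisors.ne_zero hc
    refine ⟨c, a, hc0, ?_⟩
    exact mul_div_cancel₀ _ hc0
  have hchar : CharZero k := by
    have hinj : Function.Injective (ι.comp (AddMonoidAlgebra.singleZeroRingHom : ℂ →+* A0 lam)) :=
      RingHom.injective _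
    exact charZero_of_injective_ringHom hinj
  have hK : ∀ g, kap ι hb g = 0 ↔ g ∈ I := kap_zero_iff ι hb hι hhom
  have hden := denom ι hb hk
  have hf0 : kap ι hb f ≠ 0 := fun h => hf ((hK f).1 h)
  -- the polynomial
  obtain ⟨n0, p0, hp0⟩ := LaurentPolynomial.exists_T_pow (kap ι hb f)
  have hp00 : p0 ≠ 0 := by
    rintro rfl
    rw [map_zero] at hp0
    have h1 := congrArg (fun x => x * LaurentPolynomial.T (-(n0 : ℤ))) hp0
    simp only [zero_mul, mul_assoc, ← LaurentPolynomial.T_add, add_neg_cancel, LaurentPolynomial.T_zero,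
      mul_one] at h1
    exact hf0 h1.symm
  obtain ⟨p, hp, hXp⟩ := Polynomial.exists_eq_pow_rootMultiplicity_mul_and_not_dvd p0 hp00 0
  rw [C_0, sub_zero] at hp hXp
  set r := rootMultiplicity 0 p0 with hr
  have hpn : toLaurent p = kap ι hb f * LaurentPolynomial.T ((n0 : ℤ) - r) := by
    rw [LaurentPolynomial.T_sub, ← mul_assoc, ← hp0, hp, map_mul, toLaurent_X_pow, mul_comm,
      ← mul_assoc, ← LaurentPolynomial.T_add, neg_add_cancel, LaurentPolynomial.T_zero, one_mul]
  generalize ((n0 : ℤ) - r) = n at hpn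
  have hp_ne : p ≠ 0 := by
    rintro rfl
    rw [mul_zero] at hp
    exact hp00 hp
  -- squarefree
  have hsq : Squarefree p := by
    rintro q ⟨t, ht⟩
    have hq0 : q ≠ 0 := by rintro rfl; simp at ht; exact hp_ne ht
    have ht0 : t ≠ 0 := by rintro rfl; simp at ht; exact hp_ne ht
    obtain ⟨c, g1, hc, h1⟩ := hden (toLaurent (q * t))
    obtain ⟨c', g2, hc', h2⟩ := hden (toLaurent t * LaurentPolynomial.T n)
    have e1 : jj lam c' * g1 ^ 2 - (jj lam c) ^ 2 * g2 * f ∈ I := by
      rw [← hK, map_sub, map_mul, map_mul, map_mul, map_pow, map_pow, kap_jj, kap_jj, ← h1, ← h2,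
        map_mul]
      have h3 : toLaurent p = toLaurent q * toLaurent q * toLaurent t := by rw [ht, map_mul, map_mul]
      rw [h3] at hpn
      linear_combination (LaurentPolynomial.C (ι c') * LaurentPolynomial.C (ι c) ^ 2 * toLaurent t) * hpn
    have e2 : (jj lam c' * g1) ^ 2 ∈ I ⊔ Ideal.span {f} := by
      have h4 : (jj lam c' * g1) ^ 2 = jj lam c' * (jj lam c' * g1 ^ 2 - (jj lam c) ^ 2 * g2 * f) +
          jj lam c' * (jj lam c) ^ 2 * g2 * f := by ring
      rw [h4]
      refine Ideal.add_mem _ (Ideal.mem_sup_left (I.mul_mem_left _ e1)) (Ideal.mem_sup_right ?_)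
      exact Ideal.mul_mem_left _ _ (Ideal.mem_span_singleton_self f)
    have e3 : jj lam c' * g1 ∈ I ⊔ Ideal.span {f} := hrad ⟨2, e2⟩
    obtain ⟨i, hi, j, hj, hij⟩ := Submodule.mem_sup.1 e3
    obtain ⟨a, ha⟩ := Ideal.mem_span_singleton'.1 hj
    have e4 : LaurentPolynomial.C (ι c') * (LaurentPolynomial.C (ι c) * toLaurent (q * t)) =
        kap ι hb a * kap ι hb f := by
      rw [h1, ← kap_jj, ← map_mul, ← hij, map_add, (hK i).2 hi, zero_add, ← ha, map_mul]
    have e5 : kap ι hb f = toLaurent p * LaurentPolynomial.T (-n) := by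
      rw [hpn, mul_assoc, ← LaurentPolynomial.T_add, add_neg_cancel, LaurentPolynomial.T_zero, mul_one]
    have hqt : toLaurent (q * t) ≠ (0 : LaurentPolynomial k) := toLaurent_ne_zero.2 (mul_ne_zero hq0 ht0)
    have e6 : LaurentPolynomial.C (ι c' * ι c) =
        kap ι hb a * LaurentPolynomial.T (-n) * toLaurent q := by
      apply mul_right_cancel₀ hqt
      have h5 : toLaurent p = toLaurent q * toLaurent (q * t) := by rw [ht, ← map_mul, mul_assoc]
      rw [map_mul]
      calc LaurentPolynomial.C (ι c') * LaurentPolynomial.C (ι c) * toLaurent (q * t)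
          = LaurentPolynomial.C (ι c') * (LaurentPolynomial.C (ι c) * toLaurent (q * t)) := mul_assoc _ _ _
        _ = kap ι hb a * kap ι hb f := e4
        _ = _ := by rw [e5, h5]; ring
    -- `q` divides a power of `X`
    obtain ⟨m, w, hw⟩ := LaurentPolynomial.exists_T_pow
      (LaurentPolynomial.C ((ι c' * ι c)⁻¹) * (kap ι hb a * LaurentPolynomial.T (-n)))
    have e7 : toLaurent (q * w) = (toLaurent (X ^ m) : LaurentPolynomial k) := by
      rw [map_mul, hw, toLaurent_X_pow]
      have h6 : (LaurentPolynomial.C ((ι c' * ι c)⁻¹) * LaurentPolynomial.C (ι c' * ι c) :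
          LaurentPolynomial k) = 1 := by
        rw [← map_mul, inv_mul_cancel₀ (mul_ne_zero hc' hc), map_one]
      linear_combination LaurentPolynomial.T (m : ℤ) * h6 -
        LaurentPolynomial.C ((ι c' * ι c)⁻¹) * LaurentPolynomial.T (m : ℤ) * e6
    have e8 : q * w = X ^ m := toLaurent_injective e7
    have e9 : q ∣ X ^ m := ⟨w, e8.symm⟩
    obtain ⟨i', hi', hass⟩ := (dvd_prime_pow (prime_X (R := k)) m).1 e9
    rcases Nat.eq_zero_or_pos i' with h7 | h7
    · rw [h7, pow_zero] at hass
      exact associated_one_iff_isUnit.1 hass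
    · exfalso
      apply hXp
      have h8 : (X : k[X]) ∣ q := (dvd_pow_self X h7.ne').trans hass.symm.dvd
      rw [ht, mul_assoc]
      exact h8.mul_right _
  -- separable
  obtain ⟨u, v, huv⟩ := PerfectField.separable_iff_squarefree.2 hsq
  have h1 : toLaurent u * toLaurent p + toLaurent v * LaurentPolynomial.T (-1) * dl (toLaurent p) =
      (1 : LaurentPolynomial k) := by
    rw [dl_poly, map_mul, toLaurent_X]
    have h2 := congrArg toLaurent huv
    rw [map_add, map_mul, map_mul, map_one] at h2
    have h3 : (LaurentPolynomial.T (-1) * LaurentPolynomial.T 1 : LaurentPolynomial k) = 1 := by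
      rw [← LaurentPolynomial.T_add]; simp
    linear_combination h2 + toLaurent v * toLaurent (derivative p) * h3
  rw [hpn, dl_mul_T] at h1
  obtain ⟨c1, gA, hc1, hA⟩ := hden (toLaurent u * LaurentPolynomial.T n +
    toLaurent v * LaurentPolynomial.T (-1) * (n : LaurentPolynomial k) * LaurentPolynomial.T n)
  obtain ⟨c2, gB, hc2, hB⟩ := hden (toLaurent v * LaurentPolynomial.T (-1) * LaurentPolynomial.T n)
  refine ⟨jj lam c2 * gA, jj lam c1 * gB, jj lam (c1 * c2), ?_, ?_, ?_⟩
  · rw [← hι, map_mul]
    exact mul_ne_zero hc1 hc2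
  · intro m hm
    classical
    have h2 : (jj lam (c1 * c2)).coeff.support ⊆
        (c1 * c2).coeff.support.image (fun x : lam.ker => (x : M)) := Finsupp.mapDomain_support
    obtain ⟨x, -, rfl⟩ := Finset.mem_image.1 (h2 hm)
    exact x.2
  · have hD : (∑ m ∈ f.coeff.support, AddMonoidAlgebra.single m ((lam m : ℂ) * f.coeff m)) = DD lam f := rfl
    rw [hD, ← hK, map_sub, map_add, map_mul, map_mul, map_mul, map_mul, kap_DD, kap_jj, kap_jj, kap_jj,
      ← hA, ← hB, map_mul, map_mul]
    linear_combination (LaurentPolynomial.C (ι c1) * LaurentPolynomial.C (ι c2)) * h1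

end

end Pool.Agent.Y180.OG
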